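import Pool.Agent.Helper36.JJ.Defs

/-!
# JJ-17: a subfield over which the coordinates of a vertex are algebraically independent
-/

namespace Pool.Agent.Helper36.JJ

open Finset Module
open Pool.Agent.Helper36.Pin

namespace SubK

/-- a quadratic relation between two algebraically independent numbers is trivial -/
theorem quad_zero {R : Type*} [CommRing R] [Algebra R ℝ] (y : Fin 2 → ℝ)
    (hy : AlgebraicIndependent R y) (c : Fin 6 → R)
    (h : algebraMap R ℝ (c 0) + algebraMap R ℝ (c 1) * y 0 + algebraMap R ℝ (c 2) * y 1 +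
      algebraMap R ℝ (c 3) * y 0 ^ 2 + algebraMap R ℝ (c 4) * (y 0 * y 1) +
          algebraMap R ℝ (c 5) * y 1 ^ 2 = 0) : ∀ i, c i = 0 := by
  classical
  set P : MvPolynomial (Fin 2) R :=
    MvPolynomial.monomial 0 (c 0) + MvPolynomial.monomial (Finsupp.single 0 1) (c 1) +
      MvPolynomial.monomial (Finsupp.single 1 1) (c 2) +
      MvPolynomial.monomial (Finsupp.single 0 2) (c 3) +
      MvPolynomial.monomial (Finsupp.single 0 1 + Finsupp.single 1 1) (c 4) +
      MvPolynomial.monomial (Finsupp.single 1 2) (c 5) with hP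
  have hP0 : P = 0 := by
    apply hy
    rw [map_zero, ← h, hP]
    simp [MvPolynomial.aeval_monomial, Finsupp.prod_add_index, pow_add,
      Finsupp.prod_single_index]
  have hco : ∀ m : Fin 2 →₀ ℕ, MvPolynomial.coeff m P = 0 := by
    intro m; rw [hP0, MvPolynomial.coeff_zero]
  have e0 := hco 0
  have e1 := hco (Finsupp.single 0 1)
  have e2 := hco (Finsupp.single 1 1)
  have e3 := hco (Finsupp.single 0 2)
  have e4 := hco (Finsupp.single 0 1 + Finsupp.single 1 1)
  have e5 := hco (Finsupp.single 1 2)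
  simp [hP, MvPolynomial.coeff_monomial, Finsupp.ext_iff, Fin.forall_fin_two] at e0 e1 e2 e3 e4 e5
  intro i
  fin_cases i <;> simp <;> assumption

end SubK

variable {V : Type} [Fintype V] [DecidableEq V]

theorem exists_subfield (p : V → Fin 2 → ℝ) (hp : Generic p) (X : Finset V) (v : V)
    (hv : v ∉ X) :
    ∃ K : Subfield ℝ,
      (∀ x : ℝ, IsAlgebraic (Algebra.adjoin ℚ {r : ℝ | ∃ w ∈ X, ∃ j, r = p w j}) x → x ∈ K) ∧
      ∀ c : Fin 6 → ℝ, (∀ i, c i ∈ K) →
        c 0 + c 1 * p v 0 + c 2 * p v 1 + c 3 * p v 0 ^ 2 + c 4 * (p v 0 * p v 1) +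
          c 5 * p v 1 ^ 2 = 0 → ∀ i, c i = 0 := by
  classical
  set S : Set ℝ := {r : ℝ | ∃ w ∈ X, ∃ j, r = p w j} with hS
  have hS' : S = (fun x : V × Fin 2 => p x.1 x.2) '' {x | x.1 ∈ X} := by
    ext r
    constructor
    · rintro ⟨w, hw, j, rfl⟩
      exact ⟨(w, j), hw, rfl⟩
    · rintro ⟨⟨w, j⟩, hw, rfl⟩
      exact ⟨w, hw, j, rfl⟩
  have hdis : Disjoint {x : V × Fin 2 | x.1 ∈ X} {x : V × Fin 2 | x.1 = v} := by
    rw [Set.disjoint_left]
    rintro ⟨w, j⟩ h1 h2
    simp only [Set.mem_setOf_eq] at h1 h2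
    exact hv (h2 ▸ h1)
  have h1 := AlgebraicIndependent.adjoin_of_disjoint hp hdis
  rw [← hS'] at h1
  have h2 : AlgebraicIndependent (Algebra.adjoin ℚ S) (fun j : Fin 2 => p v j) :=
    h1.comp (fun j : Fin 2 => (⟨(v, j), rfl⟩ : {x : V × Fin 2 | x.1 = v}))
      (fun a b hab => by simpa using hab)
  have h3 := h2.subalgebraAlgebraicClosure
  refine ⟨{ Subalgebra.algebraicClosure (Algebra.adjoin ℚ S) ℝ with
      neg_mem' := fun {x} hx => ?_
      inv_mem' := fun x hx => ?_ }, ?_, ?_⟩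
  · exact IsAlgebraic.neg hx
  · exact IsAlgebraic.inv hx
  · intro x hx
    exact hx
  · intro c hc h i
    have := SubK.quad_zero (fun j : Fin 2 => p v j) h3
      (fun i => (⟨c i, hc i⟩ : Subalgebra.algebraicClosure (Algebra.adjoin ℚ S) ℝ)) h i
    exact congrArg Subtype.val this

end Pool.Agent.Helper36.JJ
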